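import Mathlib

/-!
# Averages at a random scale and logarithmic averages (MP_c59857_nt)
-/

set_option autoImplicit false

open Finset

namespace Pool.Agent.H56.FS

/-- the sum of `1 / N ^ 2` -/
theorem sum_sq {Y : ℕ} (hY : 1 ≤ Y) {Z : ℕ} (hZ : Y ≤ Z) :
    ∑ N ∈ Icc Y Z, 1 / (N : ℝ) ^ 2 ≤ 2 / (Y : ℝ) - 1 / (Z : ℝ) := by
  induction Z, hZ using Nat.le_induction with
  | base =>
    have h1 : (1 : ℝ) ≤ Y := by exact_mod_cast hY
    rw [Icc_self, sum_singleton]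
    have h2 : (2 : ℝ) / Y - 1 / Y = 1 / Y := by ring
    rw [h2]
    exact one_div_le_one_div_of_le (by linarith) (by nlinarith)
  | succ Z hZ ih =>
    have h1 : (1 : ℝ) ≤ Z := by exact_mod_cast hY.trans hZ
    rw [sum_Icc_succ_top (by omega)]
    have h2 : 1 / (((Z + 1 : ℕ) : ℝ)) ^ 2 ≤ 1 / (Z : ℝ) - 1 / ((Z + 1 : ℕ) : ℝ) := by
      push_cast
      rw [div_sub_div _ _ (by linarith) (by linarith),
        div_le_div_iff₀ (by nlinarith) (by nlinarith)]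
      nlinarith
    linarith

theorem sum_sq_le {Y : ℕ} (hY : 1 ≤ Y) {Z : ℕ} (hZ : Y ≤ Z) :
    ∑ N ∈ Icc Y Z, 1 / (N : ℝ) ^ 2 ≤ 2 := by
  have h1 := sum_sq hY hZ
  have h2 : (1 : ℝ) ≤ Y := by exact_mod_cast hY
  have h3 : (2 : ℝ) / Y ≤ 2 := div_le_self (by norm_num) h2
  have h4 : (0 : ℝ) ≤ 1 / Z := by positivity
  linarith

/-- the sum of the averages -/
theorem sum_avg (f : ℕ → ℝ) (C : ℝ) (hC : ∀ n, |f n| ≤ C) {Y : ℕ} (hY : 1 ≤ Y) {Z : ℕ}
    (hZ : Y ≤ Z) :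
    |∑ n ∈ Icc Y Z, f n / n - ∑ N ∈ Icc Y Z, (∑ n ∈ Icc 1 N, f n) / N / N| ≤ 6 * C := by
  have hC0 : 0 ≤ C := (abs_nonneg _).trans (hC 0)
  obtain ⟨s, hs⟩ : ∃ s : ℕ → ℝ, s = fun N => ∑ n ∈ Icc 1 N, f n := ⟨_, rfl⟩
  have hsb : ∀ N, |s N| ≤ C * N := by
    intro N
    rw [hs]
    refine (abs_sum_le_sum_abs _ _).trans ?_
    refine (sum_le_sum fun n _ => hC n).trans ?_
    rw [sum_const, Nat.card_Icc, nsmul_eq_mul, mul_comm]
    simp
  have hss : ∀ N, s (N + 1) = s N + f (N + 1) := by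
    intro N
    rw [hs]
    exact sum_Icc_succ_top (by omega) _
  have h1 : ∀ N : ℕ, 1 ≤ N → |s N / N| ≤ C := by
    intro N hN
    have hN' : (0 : ℝ) < N := by exact_mod_cast hN
    rw [abs_div, abs_of_pos hN', div_le_iff₀ hN']
    exact hsb N
  have main : |∑ n ∈ Icc Y Z, f n / n - ∑ N ∈ Icc Y Z, s N / N / N - s Z / Z| ≤
      5 * C - 2 * C / Z := by
    induction Z, hZ using Nat.le_induction with
    | base =>
      have hY' : (1 : ℝ) ≤ Y := by exact_mod_cast hY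
      rw [Icc_self, sum_singleton, sum_singleton]
      have h2 : |f Y / Y| ≤ C := by
        rw [abs_div, abs_of_pos (by linarith : (0 : ℝ) < Y)]
        exact (div_le_self (abs_nonneg _) hY').trans (hC Y)
      have h3 : |s Y / Y / Y| ≤ C := by
        rw [abs_div, abs_of_pos (by linarith : (0 : ℝ) < Y)]
        exact (div_le_self (abs_nonneg _) hY').trans (h1 Y hY)
      have h4 := h1 Y hY
      have h5 : 2 * C / Y ≤ 2 * C := div_le_self (by linarith) hY'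
      rw [abs_le] at h2 h3 h4 ⊢
      constructor <;> linarith [h2.1, h2.2, h3.1, h3.2, h4.1, h4.2]
    | succ Z hZ ih =>
      have hZ' : (1 : ℝ) ≤ Z := by exact_mod_cast hY.trans hZ
      rw [sum_Icc_succ_top (by omega), sum_Icc_succ_top (by omega)]
      have h2 : |s Z / (Z * (Z + 1) ^ 2) - f (Z + 1) / (Z + 1) ^ 2| ≤
          2 * C / Z - 2 * C / ((Z + 1 : ℕ) : ℝ) := by
        have h3 : |s Z / (Z * (Z + 1) ^ 2)| ≤ C / ((Z : ℝ) * (Z + 1)) := by
          rw [abs_div, abs_of_pos (by positivity : (0 : ℝ) < Z * (Z + 1) ^ 2),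
            div_le_div_iff₀ (by positivity) (by positivity)]
          have h4 := hsb Z
          calc |s Z| * ((Z : ℝ) * (Z + 1)) ≤ (C * Z) * (Z * (Z + 1)) :=
                mul_le_mul_of_nonneg_right h4 (by positivity)
            _ ≤ C * (Z * (Z + 1) ^ 2) := by
                have : C * (Z * (Z + 1) ^ 2) - (C * Z) * (Z * (Z + 1)) = C * (Z * (Z + 1)) := by
                  ring
                have h5 : 0 ≤ C * (Z * (Z + 1)) := by positivity
                linarith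
        have h4 : |f (Z + 1) / (Z + 1) ^ 2| ≤ C / ((Z : ℝ) * (Z + 1)) := by
          rw [abs_div, abs_of_pos (by positivity : (0 : ℝ) < ((Z : ℝ) + 1) ^ 2)]
          refine (div_le_div_of_nonneg_right (hC _) (by positivity)).trans ?_
          exact div_le_div_of_nonneg_left hC0 (by positivity) (by nlinarith)
        have h5 : 2 * C / Z - 2 * C / ((Z + 1 : ℕ) : ℝ) =
            C / ((Z : ℝ) * (Z + 1)) + C / ((Z : ℝ) * (Z + 1)) := by
          push_cast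
          field_simp
          ring
        rw [h5]
        refine (abs_sub _ _).trans ?_
        exact add_le_add h3 h4
      have h3 : ∑ n ∈ Icc Y Z, f n / n + f (Z + 1) / ((Z + 1 : ℕ) : ℝ) -
          (∑ N ∈ Icc Y Z, s N / N / N + s (Z + 1) / ((Z + 1 : ℕ) : ℝ) / ((Z + 1 : ℕ) : ℝ)) -
          s (Z + 1) / ((Z + 1 : ℕ) : ℝ) =
          (∑ n ∈ Icc Y Z, f n / n - ∑ N ∈ Icc Y Z, s N / N / N - s Z / Z) +
          (s Z / (Z * (Z + 1) ^ 2) - f (Z + 1) / (Z + 1) ^ 2) := by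
        rw [hss]
        push_cast
        field_simp
        ring
      rw [h3]
      refine (abs_add_le _ _).trans ?_
      linarith
  have hZ1 : 1 ≤ Z := hY.trans hZ
  have h2 := h1 Z hZ1
  have h3 : (0 : ℝ) ≤ 2 * C / Z := by positivity
  have e : (fun N : ℕ => (∑ n ∈ Icc 1 N, f n) / (N : ℝ) / N) = fun N : ℕ => s N / N / N := by
    rw [hs]
  have e' : ∑ N ∈ Icc Y Z, (∑ n ∈ Icc 1 N, f n) / (N : ℝ) / N =
      ∑ N ∈ Icc Y Z, s N / N / N := by rw [hs]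
  rw [e']
  rw [abs_le] at main h2 ⊢
  constructor <;> linarith [main.1, main.2, h2.1, h2.2]

/-- the sum of the squares of averages of differences -/
theorem sum_diff (f : ℕ → ℝ) (C : ℝ) (hC : ∀ N, |∑ n ∈ Icc 1 N, f n| ≤ C) {Y : ℕ} (hY : 1 ≤ Y)
    {Z : ℕ} (hZ : Y ≤ Z) :
    |∑ N ∈ Icc Y Z, ((∑ n ∈ Icc 1 N, f n) / N * ((∑ n ∈ Icc 1 N, f n) / N)) / N| ≤
      2 * C ^ 2 := by
  refine (abs_sum_le_sum_abs _ _).trans ?_
  have h1 : ∀ N ∈ Icc Y Z, |((∑ n ∈ Icc 1 N, f n) / N * ((∑ n ∈ Icc 1 N, f n) / N)) / N| ≤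
      C ^ 2 * (1 / (N : ℝ) ^ 2) := by
    intro N hN
    have hN1 : (1 : ℝ) ≤ N := by
      exact_mod_cast hY.trans (mem_Icc.1 hN).1
    have h2 := hC N
    have h3 : (∑ n ∈ Icc 1 N, f n) ^ 2 ≤ C ^ 2 := by
      rw [← sq_abs]
      exact pow_le_pow_left₀ (abs_nonneg _) h2 2
    have h4 : ((∑ n ∈ Icc 1 N, f n) / N * ((∑ n ∈ Icc 1 N, f n) / N)) / N =
        (∑ n ∈ Icc 1 N, f n) ^ 2 * (1 / (N : ℝ) ^ 2) * (1 / N) := by
      field_simp
    rw [h4, abs_of_nonneg (by positivity)]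
    have h5 : (1 : ℝ) / N ≤ 1 := by
      rw [div_le_one (by linarith)]
      exact hN1
    have h6 : 0 ≤ (∑ n ∈ Icc 1 N, f n) ^ 2 * (1 / (N : ℝ) ^ 2) := by positivity
    calc (∑ n ∈ Icc 1 N, f n) ^ 2 * (1 / (N : ℝ) ^ 2) * (1 / N) ≤
          (∑ n ∈ Icc 1 N, f n) ^ 2 * (1 / (N : ℝ) ^ 2) := mul_le_of_le_one_right h6 h5
      _ ≤ C ^ 2 * (1 / (N : ℝ) ^ 2) := mul_le_mul_of_nonneg_right h3 (by positivity)
  refine (sum_le_sum h1).trans ?_
  rw [← mul_sum, mul_comm]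
  exact mul_le_mul_of_nonneg_right (sum_sq_le hY hZ) (sq_nonneg C)

end Pool.Agent.H56.FS
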