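import Pool.Agent.H56.FS.Set
import Pool.Agent.H56.FS.Sum
import Pool.Agent.H83.W.QG

/-!
# The law of the empirical measure at a random scale (MP_c59857_nt)
-/

set_option autoImplicit false

open MeasureTheory ProbabilityTheory Filter Topology

namespace Pool.Agent.H56.FS

open Pool.Agent.H89.MT (I1 X pt z1)
open Pool.Agent.H36.RP (S)
open Pool.Agent.H83.W (S_cont pt_succ)

variable {Ω : Type*} [mΩ : MeasurableSpace Ω]

/-- The law of the empirical measure of the orbit of `u` at the random scale `N`, along windows. -/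
def RS (u : ℕ → I1) (P : Measure Ω) (K : Kernel Ω X) : Prop :=
  ∃ Y Z : ℕ → ℕ, (∀ k, 1 ≤ Y k ∧ Y k ≤ Z k ∧
    Real.log (Z k) ^ (24 / 25 : ℝ) ≤ Real.log ((Z k : ℝ) / Y k)) ∧
    Tendsto (fun k => Real.log ((Z k : ℝ) / Y k)) atTop atTop ∧
    ∀ (r : ℕ) (F : Fin r → C(X, ℝ)),
      Tendsto (fun k => (∑ N ∈ Finset.Icc (Y k) (Z k),
        (∏ i, (∑ n ∈ Finset.Icc 1 N, F i (pt u n)) / N) / N) / Real.log ((Z k : ℝ) / Y k))
        atTop (𝓝 (∫ ω, ∏ i, ∫ x, F i x ∂K ω ∂P))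

theorem cont_int (ν : Measure X) [IsProbabilityMeasure ν] (F : C(X, ℝ)) : Integrable F ν :=
  Integrable.of_bound F.continuous.aestronglyMeasurable ‖F‖
    (Eventually.of_forall fun x => F.norm_coe_le_norm x)

/-- the mean measure is a logarithmic limit -/
theorem K_mean {u : ℕ → I1} {P : Measure Ω} [IsProbabilityMeasure P] {K : Kernel Ω X}
    [IsMarkovKernel K] (h : RS u P K) :
    ∃ Y Z : ℕ → ℕ, (∀ k, 1 ≤ Y k ∧ Y k ≤ Z k ∧
      Real.log (Z k) ^ (24 / 25 : ℝ) ≤ Real.log ((Z k : ℝ) / Y k)) ∧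
      Tendsto (fun k => Real.log ((Z k : ℝ) / Y k)) atTop atTop ∧
      ∀ F : C(X, ℝ), Tendsto (fun k => (∑ n ∈ Finset.Icc (Y k) (Z k), F (pt u n) / n) /
        Real.log ((Z k : ℝ) / Y k)) atTop (𝓝 (∫ x, F x ∂(K ∘ₘ P))) := by
  obtain ⟨Y, Z, hYZ, hL, hF⟩ := h
  refine ⟨Y, Z, hYZ, hL, fun F => ?_⟩
  have h1 := hF 1 (fun _ => F)
  simp only [Fin.prod_univ_one] at h1
  rw [← int_comp P K (cont_int _ F)] at h1
  have hb : ∀ n, |F (pt u n)| ≤ ‖F‖ := fun n => by
    have := F.norm_coe_le_norm (pt u n)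
    rwa [Real.norm_eq_abs] at this
  have h3 : Tendsto (fun k => (∑ n ∈ Finset.Icc (Y k) (Z k), F (pt u n) / n) /
      Real.log ((Z k : ℝ) / Y k) - (∑ N ∈ Finset.Icc (Y k) (Z k),
        (∑ n ∈ Finset.Icc 1 N, F (pt u n)) / N / N) /
      Real.log ((Z k : ℝ) / Y k)) atTop (𝓝 0) := by
    have hlim : Tendsto (fun k => 6 * ‖F‖ / Real.log ((Z k : ℝ) / Y k)) atTop (𝓝 0) :=
      hL.const_div_atTop _
    refine squeeze_zero_norm' ?_ hlim
    filter_upwards [hL.eventually_gt_atTop 0] with k hk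
    obtain ⟨hY, hYX, _⟩ := hYZ k
    rw [← sub_div, Real.norm_eq_abs, abs_div, abs_of_pos hk]
    exact div_le_div_of_nonneg_right (sum_avg (fun n => F (pt u n)) ‖F‖ hb hY hYX) hk.le
  have h4 := h3.add h1
  simp only [sub_add_cancel, zero_add] at h4
  exact h4

/-- one continuous function -/
theorem K_inv_one {u : ℕ → I1} {P : Measure Ω} [IsProbabilityMeasure P] {K : Kernel Ω X}
    [IsMarkovKernel K] (h : RS u P K) (F : C(X, ℝ)) :
    ∀ᵐ ω ∂P, ∫ x, F (S x) ∂K ω = ∫ x, F x ∂K ω := by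
  obtain ⟨Y, Z, hYZ, hL, hF⟩ := h
  have hSc : Continuous S := S_cont
  obtain ⟨G, hG⟩ : ∃ G : C(X, ℝ), ∀ x, G x = F (S x) - F x :=
    ⟨⟨fun x => F (S x) - F x, (F.continuous.comp hSc).sub F.continuous⟩, fun x => rfl⟩
  have h1 := hF 2 (fun _ => G)
  simp only [Fin.prod_univ_two] at h1
  have hb : ∀ n, |F (pt u n)| ≤ ‖F‖ := fun n => by
    have := F.norm_coe_le_norm (pt u n)
    rwa [Real.norm_eq_abs] at this
  have hsum : ∀ N : ℕ, ∑ n ∈ Finset.Icc 1 N, G (pt u n) = F (pt u (N + 1)) - F (pt u 1) := by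
    intro N
    induction N with
    | zero => simp
    | succ N ih =>
      rw [Finset.sum_Icc_succ_top (by omega), ih, hG]
      have h2 : S (pt u (N + 1)) = pt u (N + 1 + 1) := (pt_succ u (N + 1)).symm
      rw [h2]
      ring
  have hsb : ∀ N : ℕ, |∑ n ∈ Finset.Icc 1 N, G (pt u n)| ≤ 2 * ‖F‖ := by
    intro N
    rw [hsum]
    refine (abs_sub _ _).trans ?_
    linarith [hb (N + 1), hb 1]
  have h3 : Tendsto (fun k => (∑ N ∈ Finset.Icc (Y k) (Z k),
      ((∑ n ∈ Finset.Icc 1 N, G (pt u n)) / N * ((∑ n ∈ Finset.Icc 1 N, G (pt u n)) / N)) / N) /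
      Real.log ((Z k : ℝ) / Y k)) atTop (𝓝 0) := by
    have hlim : Tendsto (fun k => 2 * (2 * ‖F‖) ^ 2 / Real.log ((Z k : ℝ) / Y k)) atTop (𝓝 0) :=
      hL.const_div_atTop _
    refine squeeze_zero_norm' ?_ hlim
    filter_upwards [hL.eventually_gt_atTop 0] with k hk
    obtain ⟨hY, hYX, _⟩ := hYZ k
    rw [Real.norm_eq_abs, abs_div, abs_of_pos hk]
    exact div_le_div_of_nonneg_right
      (sum_diff (fun n => G (pt u n)) (2 * ‖F‖) hsb hY hYX) hk.le
  have h4 : ∫ ω, (∫ x, G x ∂K ω) * (∫ x, G x ∂K ω) ∂P = 0 := tendsto_nhds_unique h1 h3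
  have hm : AEStronglyMeasurable (fun ω => ∫ x, G x ∂(K ω)) P :=
    (int_comp_int P K (cont_int _ G)).1
  have hGb : ∀ ω, |∫ x, G x ∂(K ω)| ≤ ‖G‖ := by
    intro ω
    have h2 := norm_integral_le_of_norm_le_const (μ := K ω) (f := G) (C := ‖G‖)
      (Eventually.of_forall fun x => G.norm_coe_le_norm x)
    simpa using h2
  have hi : Integrable (fun ω => (∫ x, G x ∂(K ω)) * ∫ x, G x ∂(K ω)) P :=
    Integrable.of_bound (hm.mul hm) (‖G‖ * ‖G‖) (Eventually.of_forall fun ω => by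
      rw [Real.norm_eq_abs, abs_mul]
      exact mul_le_mul (hGb ω) (hGb ω) (abs_nonneg _) (norm_nonneg _))
  rw [integral_eq_zero_iff_of_nonneg (fun ω => mul_self_nonneg _) hi] at h4
  filter_upwards [h4] with ω hω
  have h5 : ∫ x, G x ∂(K ω) = 0 := mul_self_eq_zero.1 hω
  have h6 : ∫ x, G x ∂(K ω) = ∫ x, F (S x) ∂K ω - ∫ x, F x ∂K ω := by
    simp only [hG]
    exact integral_sub (cont_int (K ω) ⟨fun x => F (S x), F.continuous.comp hSc⟩)
      (cont_int (K ω) F)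
  rw [h6] at h5
  linarith

/-- almost every measure is invariant -/
theorem K_inv {u : ℕ → I1} {P : Measure Ω} [IsProbabilityMeasure P] {K : Kernel Ω X}
    [IsMarkovKernel K] (h : RS u P K) : ∀ᵐ ω ∂P, MeasurePreserving S (K ω) (K ω) := by
  have hSc : Continuous S := S_cont
  have hS : Measurable S := hSc.measurable
  obtain ⟨D, hDc, hD⟩ := TopologicalSpace.exists_countable_dense C(X, ℝ)
  have h1 : ∀ᵐ ω ∂P, ∀ F ∈ D, ∫ x, F (S x) ∂K ω = ∫ x, F x ∂K ω := by
    rw [ae_ball_iff hDc]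
    exact fun F _ => K_inv_one h F
  filter_upwards [h1] with ω hω
  refine ⟨hS, ?_⟩
  have : IsProbabilityMeasure ((K ω).map S) :=
    Measure.isProbabilityMeasure_map hS.aemeasurable
  have hall : ∀ F : C(X, ℝ), ∫ x, F (S x) ∂K ω = ∫ x, F x ∂K ω := by
    intro F
    refine eq_of_forall_dist_le fun ε hε => ?_
    obtain ⟨G, hGD, hG⟩ := hD.exists_dist_lt F (half_pos hε)
    have hb : ∀ x, |F x - G x| ≤ ε / 2 := by
      intro x
      have h3 := ContinuousMap.dist_apply_le_dist (f := F) (g := G) x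
      rw [Real.dist_eq] at h3
      exact h3.trans hG.le
    have h2 : |∫ x, F (S x) ∂K ω - ∫ x, G (S x) ∂K ω| ≤ ε / 2 := by
      have e1 : Integrable (fun x => F (S x)) (K ω) :=
        cont_int (K ω) ⟨fun x => F (S x), F.continuous.comp hSc⟩
      have e2 : Integrable (fun x => G (S x)) (K ω) :=
        cont_int (K ω) ⟨fun x => G (S x), G.continuous.comp hSc⟩
      rw [← integral_sub e1 e2]
      have h4 := norm_integral_le_of_norm_le_const (μ := K ω)
        (f := fun x => F (S x) - G (S x)) (C := ε / 2) (Eventually.of_forall fun x => hb (S x))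
      simpa using h4
    have h3 : |∫ x, F x ∂K ω - ∫ x, G x ∂K ω| ≤ ε / 2 := by
      rw [← integral_sub (cont_int (K ω) F) (cont_int (K ω) G)]
      have h4 := norm_integral_le_of_norm_le_const (μ := K ω)
        (f := fun x => F x - G x) (C := ε / 2) (Eventually.of_forall fun x => hb x)
      simpa using h4
    have h4 := hω G hGD
    rw [Real.dist_eq]
    rw [h4] at h2
    rw [abs_le] at h2 h3 ⊢
    constructor <;> linarith [h2.1, h2.2, h3.1, h3.2]
  apply ext_of_forall_integral_eq_of_IsFiniteMeasure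
  intro F
  rw [integral_map hS.aemeasurable F.continuous.aestronglyMeasurable]
  exact hall ⟨F, F.continuous⟩

end Pool.Agent.H56.FS
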