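import Pool.Agent.H56.FS.Ker
import Pool.Agent.H36.RP.CMP2

/-!
# From the mean of a random invariant measure to the random measure, on `X` (MP_c59857_nt)
-/

set_option autoImplicit false

open MeasureTheory ProbabilityTheory Filter Topology

namespace Pool.Agent.H56.FS

open Pool.Agent.H89.MT (I1 X pt z1)
open Pool.Agent.H36.RP (S past remote remote_le remote_le_past past_le comp IS IS_le cut meas_cut
  past_set Trit comp_int exists_version quad lin_cond)
open Pool.Agent.H24.EG (Alg alg_countable alg_gen alg_meas alg_pi)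

variable {Ω : Type*} [mΩ : MeasurableSpace Ω]

/-- what holds for the mean holds for almost every measure -/
theorem ae_K (P : Measure Ω) [IsProbabilityMeasure P] (K : Kernel Ω X) [IsMarkovKernel K]
    {p : X → Prop} (h : ∀ᵐ x ∂(K ∘ₘ P), p x) : ∀ᵐ ω ∂P, ∀ᵐ x ∂K ω, p x :=
  Measure.ae_ae_of_ae_comp h

/-- the components are the same -/
theorem comp_same (P : Measure Ω) [IsProbabilityMeasure P] (K : Kernel Ω X) [IsMarkovKernel K]
    (hS : MeasurePreserving S (K ∘ₘ P) (K ∘ₘ P))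
    (hK : ∀ᵐ ω ∂P, MeasurePreserving S (K ω) (K ω)) :
    ∀ᵐ ω ∂P, ∀ᵐ x ∂K ω, comp (K ω) x = comp (K ∘ₘ P) x := by
  have h1 : ∀ᵐ ω ∂P, ∀ B ∈ Alg, ∀ᵐ x ∂K ω, (comp (K ω) x) B = (comp (K ∘ₘ P) x) B := by
    rw [ae_ball_iff alg_countable]
    intro B hB
    have hBm := alg_meas hB
    have hG : Measurable[Inv S] fun x => (comp (K ∘ₘ P) x).real B :=
      (measurable_condExpKernel (μ := K ∘ₘ P) (m := Inv S) hBm).ennreal_toReal
    have h2 := condExpKernel_ae_eq_condExp (μ := K ∘ₘ P) IS_le hBm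
    have hF1 : ∀ x : X, |B.indicator (fun _ => (1 : ℝ)) x| ≤ 1 := by
      intro x
      by_cases hx : x ∈ B
      · simp [hx]
      · simp [hx]
    have hG1 : ∀ x : X, |(comp (K ∘ₘ P) x).real B| ≤ 1 := by
      intro x
      have : IsProbabilityMeasure (comp (K ∘ₘ P) x) := by unfold comp; infer_instance
      rw [abs_of_nonneg measureReal_nonneg]
      exact measureReal_le_one
    have h3 := inv_cond P K hS hK (F := B.indicator fun _ => (1 : ℝ))
      (measurable_const.indicator hBm) (C := 1) hF1 hG hG1 h2.symm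
    filter_upwards [h3] with ω h3
    have h4 := condExpKernel_ae_eq_condExp (μ := K ω) IS_le hBm
    filter_upwards [h3, h4] with x h3 h4
    have h5 : (comp (K ω) x).real B = (comp (K ∘ₘ P) x).real B := by
      rw [← h3, ← h4]
      rfl
    have : IsProbabilityMeasure (comp (K ω) x) := by unfold comp; infer_instance
    have : IsProbabilityMeasure (comp (K ∘ₘ P) x) := by unfold comp; infer_instance
    exact (measureReal_eq_measureReal_iff).mp h5
  filter_upwards [h1] with ω h1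
  have h2 : ∀ᵐ x ∂K ω, ∀ B ∈ Alg, (comp (K ω) x) B = (comp (K ∘ₘ P) x) B := by
    rw [ae_ball_iff alg_countable]
    exact h1
  filter_upwards [h2] with x hx
  have : IsProbabilityMeasure (comp (K ω) x) := by unfold comp; infer_instance
  have : IsProbabilityMeasure (comp (K ∘ₘ P) x) := by unfold comp; infer_instance
  exact ext_of_generate_finite Alg alg_gen alg_pi hx (by rw [measure_univ, measure_univ])

/-- the integral over a past set -/
theorem K_int (P : Measure Ω) [IsProbabilityMeasure P] (K : Kernel Ω X) [IsMarkovKernel K]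
    (hS : MeasurePreserving S (K ∘ₘ P) (K ∘ₘ P))
    (hK : ∀ᵐ ω ∂P, MeasurePreserving S (K ω) (K ω))
    (hinv : ∀ A : Set X, MeasurableSet A → S ⁻¹' A = A →
      (K ∘ₘ P)[A.indicator (fun _ => (1 : ℝ)) | remote] =ᵐ[K ∘ₘ P]
        A.indicator (fun _ => (1 : ℝ)))
    (q : ℤ) (g : X → ℝ) (C : ℝ) (hg : Measurable g) (hgC : ∀ x, |g x| ≤ C)
    (h0 : (K ∘ₘ P)[g | past q] =ᵐ[K ∘ₘ P] 0) (A : Set X) (hA : MeasurableSet[past q] A) :
    ∀ᵐ ω ∂P, ∫ y, A.indicator g y ∂(K ω) = 0 := by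
  have hAm : MeasurableSet A := past_le q _ hA
  have h1 := comp_int (K ∘ₘ P) hinv q g C hg hgC h0 A hA
  have hgi : Integrable (A.indicator g) (K ∘ₘ P) :=
    (Integrable.of_bound hg.aestronglyMeasurable C (Eventually.of_forall fun x => hgC x)).indicator
      hAm
  have h2 := condExp_ae_eq_integral_condExpKernel (μ := K ∘ₘ P) IS_le hgi
  have h3 : (K ∘ₘ P)[A.indicator g | Inv S] =ᵐ[K ∘ₘ P] 0 := by
    filter_upwards [h1, h2] with x h1 h2
    rw [h2]
    exact h1
  have hC0 : ∀ x, |A.indicator g x| ≤ C := by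
    intro x
    by_cases hx : x ∈ A
    · rw [Set.indicator_of_mem hx]
      exact hgC x
    · rw [Set.indicator_of_notMem hx, abs_zero]
      exact (abs_nonneg _).trans (hgC x)
  exact key P K hS hK (hg.indicator hAm) hC0 h3

/-- the conditional expectation given the past -/
theorem K_past (P : Measure Ω) [IsProbabilityMeasure P] (K : Kernel Ω X) [IsMarkovKernel K]
    (hS : MeasurePreserving S (K ∘ₘ P) (K ∘ₘ P))
    (hK : ∀ᵐ ω ∂P, MeasurePreserving S (K ω) (K ω))
    (hinv : ∀ A : Set X, MeasurableSet A → S ⁻¹' A = A →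
      (K ∘ₘ P)[A.indicator (fun _ => (1 : ℝ)) | remote] =ᵐ[K ∘ₘ P]
        A.indicator (fun _ => (1 : ℝ)))
    (q : ℤ) (f V : X → ℝ) (C : ℝ) (hf : Measurable f) (hfC : ∀ x, |f x| ≤ C)
    (hV : Measurable[past q] V) (hVC : ∀ x, |V x| ≤ C)
    (h0 : (K ∘ₘ P)[f | past q] =ᵐ[K ∘ₘ P] V) :
    ∀ᵐ ω ∂P, (K ω)[f | past q] =ᵐ[K ω] V := by
  have hVm : Measurable V := hV.mono (past_le q) le_rfl
  have hfi : ∀ ν : Measure X, IsProbabilityMeasure ν → Integrable f ν := fun ν _ =>
    Integrable.of_bound hf.aestronglyMeasurable C (Eventually.of_forall fun x => hfC x)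
  have hVi : ∀ ν : Measure X, IsProbabilityMeasure ν → Integrable V ν := fun ν _ =>
    Integrable.of_bound hVm.aestronglyMeasurable C (Eventually.of_forall fun x => hVC x)
  have hg0 : (K ∘ₘ P)[f - V | past q] =ᵐ[K ∘ₘ P] 0 := by
    have h1 := condExp_sub (hfi (K ∘ₘ P) inferInstance) (hVi (K ∘ₘ P) inferInstance) (past q)
    have h2 : (K ∘ₘ P)[V | past q] = V :=
      condExp_of_stronglyMeasurable (past_le q) hV.stronglyMeasurable
        (hVi (K ∘ₘ P) inferInstance)
    filter_upwards [h1, h0] with x h1 h0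
    rw [h1, h2]
    simp [h0]
  have hgm : Measurable (f - V) := hf.sub hVm
  have hgC : ∀ x, |(f - V) x| ≤ 2 * C := by
    intro x
    have h1 := hfC x
    have h2 := hVC x
    have h3 := abs_sub (f x) (V x)
    simp only [Pi.sub_apply]
    linarith
  have h1 : ∀ᵐ ω ∂P, ∀ B ∈ Alg, ∫ y, (cut q ⁻¹' B).indicator (f - V) y ∂(K ω) = 0 := by
    rw [ae_ball_iff alg_countable]
    intro B hB
    exact K_int P K hS hK hinv q (f - V) (2 * C) hgm hgC hg0 _ (meas_cut q (alg_meas hB))
  have h1' := K_int P K hS hK hinv q (f - V) (2 * C) hgm hgC hg0 Set.univ MeasurableSet.univ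
  filter_upwards [h1, h1'] with ω hx hx'
  have hcm : Measurable (cut q) := (meas_cut q).mono (past_le q) le_rfl
  have hgi : Integrable (f - V) (K ω) :=
    (hfi _ inferInstance).sub (hVi _ inferInstance)
  have huniv : ∫ y, (f - V) y ∂(K ω) = 0 := by
    rw [Set.indicator_univ] at hx'
    exact hx'
  have hall : ∀ B : Set X, MeasurableSet B →
      ∫ y in cut q ⁻¹' B, (f - V) y ∂(K ω) = 0 := by
    intro B hB
    refine MeasurableSpace.induction_on_inter
      (C := fun B _ => ∫ y in cut q ⁻¹' B, (f - V) y ∂(K ω) = 0) alg_gen alg_pi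
      ?_ ?_ ?_ ?_ B hB
    · simp
    · intro B hB
      rw [← integral_indicator (hcm (alg_meas hB))]
      exact hx B hB
    · intro B hB h
      have h2 := integral_add_compl (hcm hB) hgi
      rw [h, huniv, zero_add] at h2
      rw [Set.preimage_compl]
      exact h2
    · intro B hd hB h
      rw [Set.preimage_iUnion, integral_iUnion (fun i => hcm (hB i)) _ hgi.integrableOn]
      · simp only [h, tsum_zero]
      · intro i j hij
        exact Disjoint.preimage _ (hd hij)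
  refine (ae_eq_condExp_of_forall_setIntegral_eq (past_le q) (hfi _ inferInstance) ?_ ?_ ?_).symm
  · intro s _ _
    exact (hVi _ inferInstance).integrableOn
  · intro A hA _
    obtain ⟨B, hB, rfl⟩ := past_set hA
    have h2 := hall B hB
    have h3 : ∫ y in cut q ⁻¹' B, (f - V) y ∂(K ω) =
        ∫ y in cut q ⁻¹' B, f y ∂(K ω) - ∫ y in cut q ⁻¹' B, V y ∂(K ω) := by
      simp only [Pi.sub_apply]
      exact integral_sub (hfi _ inferInstance).integrableOn (hVi _ inferInstance).integrableOn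
    rw [h3] at h2
    linarith
  · exact hV.stronglyMeasurable.aestronglyMeasurable

/-- the prediction from the past is the prediction from the remote past, and the same function, for
almost every measure -/
theorem K_set (P : Measure Ω) [IsProbabilityMeasure P] (K : Kernel Ω X) [IsMarkovKernel K]
    (hS : MeasurePreserving S (K ∘ₘ P) (K ∘ₘ P))
    (hK : ∀ᵐ ω ∂P, MeasurePreserving S (K ω) (K ω)) (hT : Trit (K ∘ₘ P))
    (hset : ∀ (m : ℤ) (ψ : I1 → ℝ), Measurable ψ → (∀ a, |ψ a| ≤ 1) →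
      (K ∘ₘ P)[fun x => ψ (x m) | past (m - 1)] =ᵐ[K ∘ₘ P] (K ∘ₘ P)[fun x => ψ (x m) | remote])
    (hinv : ∀ A : Set X, MeasurableSet A → S ⁻¹' A = A →
      (K ∘ₘ P)[A.indicator (fun _ => (1 : ℝ)) | remote] =ᵐ[K ∘ₘ P]
        A.indicator (fun _ => (1 : ℝ))) :
    (∀ᵐ ω ∂P, ∀ (m : ℤ) (ψ : I1 → ℝ), Measurable ψ → (∀ a, |ψ a| ≤ 1) →
      (K ω)[fun y => ψ (y m) | past (m - 1)] =ᵐ[K ω] (K ω)[fun y => ψ (y m) | remote]) ∧
    ∀ (m : ℤ) (ψ : I1 → ℝ), Measurable ψ → (∀ a, |ψ a| ≤ 1) → ∀ᵐ ω ∂P,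
      (K ∘ₘ P)[fun y => ψ (y m) | remote] =ᵐ[K ω] (K ω)[fun y => ψ (y m) | remote] := by
  -- one function
  have key : ∀ (m : ℤ) (ψ : I1 → ℝ), Measurable ψ → (∀ a, |ψ a| ≤ 1) → ∀ᵐ ω ∂P,
      (K ω)[fun y => ψ (y m) | past (m - 1)] =ᵐ[K ω] (K ω)[fun y => ψ (y m) | remote] ∧
      (K ∘ₘ P)[fun y => ψ (y m) | remote] =ᵐ[K ω] (K ω)[fun y => ψ (y m) | remote] := by
    intro m ψ hψ hψ1
    have hfm : Measurable fun x : X => ψ (x m) := hψ.comp (measurable_pi_apply m)
    obtain ⟨V, hVm, hV1, hV⟩ :=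
      exists_version (K ∘ₘ P) (fun x => ψ (x m)) (fun x => hψ1 _) remote
    have h1 : (K ∘ₘ P)[fun x => ψ (x m) | past (m - 1)] =ᵐ[K ∘ₘ P] V := (hset m ψ hψ hψ1).trans hV
    have h2 := K_past P K hS hK hinv (m - 1) (fun x => ψ (x m)) V 1 hfm (fun x => hψ1 _)
      (hVm.mono (remote_le_past _) le_rfl) hV1 h1
    have hVc : ∀ᵐ ω ∂P, (K ∘ₘ P)[fun x => ψ (x m) | remote] =ᵐ[K ω] V := ae_K P K hV
    filter_upwards [h2, hVc] with ω hx hVx
    have hVi : Integrable V (K ω) :=
      Integrable.of_bound (hVm.mono remote_le le_rfl).aestronglyMeasurable 1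
        (Eventually.of_forall fun x => hV1 x)
    have h3 : (K ω)[fun y => ψ (y m) | remote] =ᵐ[K ω] V := by
      have h4 : (K ω)[(K ω)[fun y => ψ (y m) | past (m - 1)] | remote] =ᵐ[K ω]
          (K ω)[fun y => ψ (y m) | remote] :=
        condExp_condExp_of_le (remote_le_past _) (past_le _)
      have h5 : (K ω)[(K ω)[fun y => ψ (y m) | past (m - 1)] | remote] =ᵐ[K ω]
          (K ω)[V | remote] := condExp_congr_ae hx
      have h6 : (K ω)[V | remote] = V :=
        condExp_of_stronglyMeasurable remote_le hVm.stronglyMeasurable hVi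
      rw [h6] at h5
      exact h4.symm.trans h5
    exact ⟨hx.trans h3.symm, hVx.trans h3.symm⟩
  refine ⟨?_, fun m ψ hψ hψ1 => ?_⟩
  · have hpow : ∀ j : ℕ, Measurable (fun t : I1 => (t : ℝ) ^ j) ∧
        ∀ t : I1, |(t : ℝ) ^ j| ≤ 1 := by
      intro j
      refine ⟨measurable_subtype_coe.pow_const j, fun t => ?_⟩
      rw [abs_pow]
      exact pow_le_one₀ (abs_nonneg _) (abs_le.2 t.2)
    have h1 : ∀ᵐ ω ∂P, ∀ (m : ℤ) (j : ℕ),
        (K ω)[fun y => (y m : ℝ) ^ j | past (m - 1)] =ᵐ[K ω]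
          (K ω)[fun y => (y m : ℝ) ^ j | remote] := by
      rw [ae_all_iff]
      intro m
      rw [ae_all_iff]
      intro j
      filter_upwards [key m (fun t => (t : ℝ) ^ j) (hpow j).1 (hpow j).2] with ω hx
      exact hx.1
    have hTK : ∀ᵐ ω ∂P, Trit (K ω) := ae_K P K hT
    filter_upwards [h1, hTK] with ω hx hTx m ψ _ _
    obtain ⟨a, b, c, habc⟩ := quad ψ
    have h2 := lin_cond (K ω) hTx m ψ a b c habc (past_le (m - 1))
    have h3 := lin_cond (K ω) hTx m ψ a b c habc remote_le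
    filter_upwards [h2, h3, hx m 1, hx m 2] with y h2 h3 h4 h5
    rw [h2, h3, h4, h5]
  · filter_upwards [key m ψ hψ hψ1] with ω hx
    exact hx.2

end Pool.Agent.H56.FS
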