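import Pool.Agent.H24.WN.Cls

/-!
# The lower bound for all functions which pretend to be `λ χ` (MP_c59857_nt)
-/

set_option autoImplicit false

open MeasureTheory ProbabilityTheory Filter Topology Finset
open scoped ENNReal

namespace Pool.Agent.H56.FS

open Pool.Agent.H89.MT (I1 X)
open Pool.Agent.H24.EG
open Pool.Agent.H24.WN (prod_mult Far)
open Pool.Agent.H24.WT (QGW)

/-- the sum over the exceptional primes, as a sum over the integers -/
theorem ind_E {E : Set ℕ} (hE : Summable fun p : {p : ℕ // p.Prime ∧ p ∈ E} => (1 : ℝ) / (p : ℕ)) :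
    Summable (Set.indicator {p : ℕ | p.Prime ∧ p ∈ E} fun p : ℕ => (1 : ℝ) / p) :=
  (summable_subtype_iff_indicator (f := fun p : ℕ => (1 : ℝ) / p)
    (s := {p : ℕ | p.Prime ∧ p ∈ E})).1 hE

open Classical in
/-- the sum over the exceptional primes, as a sum over the primes -/
theorem sub_E {E : Set ℕ} (hE : Summable fun p : {p : ℕ // p.Prime ∧ p ∈ E} => (1 : ℝ) / (p : ℕ)) :
    Summable fun p : {p : ℕ // p.Prime} =>
      if (p : ℕ) ∈ E then (1 : ℝ) / ((p : ℕ) : ℝ) else 0 := by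
  have h := (ind_E hE).subtype {p : ℕ | p.Prime}
  have h' : Summable fun p : {p : ℕ // p.Prime} =>
      Set.indicator {p : ℕ | p.Prime ∧ p ∈ E} (fun p : ℕ => (1 : ℝ) / p) p.1 := h
  refine h'.congr fun p => ?_
  by_cases hp : p.1 ∈ E
  · rw [if_pos hp, Set.indicator_of_mem (show p.1 ∈ {p : ℕ | p.Prime ∧ p ∈ E} from ⟨p.2, hp⟩)]
  · rw [if_neg hp, Set.indicator_of_notMem (show p.1 ∉ {p : ℕ | p.Prime ∧ p ∈ E} from
      fun h => hp h.2)]

/-- there is a large prime which is not exceptional -/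
theorem ex_prime {E : Set ℕ}
    (hE : Summable fun p : {p : ℕ // p.Prime ∧ p ∈ E} => (1 : ℝ) / (p : ℕ)) (q : ℕ) :
    ∃ p : ℕ, q < p ∧ p.Prime ∧ p ∉ E := by
  by_contra hc
  push Not at hc
  apply Nat.Primes.not_summable_one_div
  have h1 : Summable fun p : ℕ => Set.indicator {p : ℕ | p.Prime} (fun n : ℕ => (1 : ℝ) / n) p -
      Set.indicator {p : ℕ | p.Prime ∧ p ∈ E} (fun n : ℕ => (1 : ℝ) / n) p := by
    refine summable_of_ne_finset_zero (s := Finset.range (q + 1)) fun p hp => ?_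
    have hpq : q < p := by
      by_contra h
      exact hp (Finset.mem_range.2 (by omega))
    by_cases hpp : p.Prime
    · rw [Set.indicator_of_mem (show p ∈ {p : ℕ | p.Prime} from hpp),
        Set.indicator_of_mem (show p ∈ {p : ℕ | p.Prime ∧ p ∈ E} from ⟨hpp, hc p hpq hpp⟩), sub_self]
    · rw [Set.indicator_of_notMem (show p ∉ {p : ℕ | p.Prime} from hpp),
        Set.indicator_of_notMem (show p ∉ {p : ℕ | p.Prime ∧ p ∈ E} from fun h => hpp h.1), sub_self]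
  have h2 := h1.add (ind_E hE)
  simp only [sub_add_cancel] at h2
  exact (summable_subtype_iff_indicator (f := fun n : ℕ => (1 : ℝ) / n)
    (s := {p : ℕ | p.Prime})).2 h2

/-- the value at one -/
theorem u_one {q : ℕ} [NeZero q] {E : Set ℕ}
    (hE : Summable fun p : {p : ℕ // p.Prime ∧ p ∈ E} => (1 : ℝ) / (p : ℕ)) {u : ℕ → I1}
    (hm : ∀ m n : ℕ, m.Coprime n → (u (m * n) : ℝ) = u m * u n)
    {χ : DirichletCharacter ℂ q}
    (hχ : ∀ p : ℕ, p.Prime → p ∉ E → ((u p : ℝ) : ℂ) = -χ p) : (u 1 : ℝ) = 1 := by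
  obtain ⟨p, hp, hpq, hpE⟩ := ex_prime hE q
  have hcop : Nat.Coprime p q := by
    rw [hpq.coprime_iff_not_dvd]
    intro hd
    have := Nat.le_of_dvd (Nat.pos_of_ne_zero (NeZero.ne q)) hd
    omega
  have hu : IsUnit ((p : ℕ) : ZMod q) := (ZMod.isUnit_iff_coprime p q).2 hcop
  have h2 : ((u p : ℝ) : ℂ) ≠ 0 := by
    rw [hχ p hpq hpE, neg_ne_zero]
    exact (hu.map χ).ne_zero
  have h3 : (u p : ℝ) ≠ 0 := fun h0 => h2 (by rw [h0, Complex.ofReal_zero])
  have h4 := hm 1 p (Nat.coprime_one_left p)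
  rw [one_mul] at h4
  exact mul_right_cancel₀ h3 (by rw [one_mul]; exact h4.symm)

/-- **The lower bound for the distance to the eigenfunctions**, for all functions which are `-χ`
at the primes outside a set `E` of primes with a finite sum `∑ 1 / p` -/
theorem far_cls (q : ℕ) [NeZero q] (E : Set ℕ)
    (hE : Summable fun p : {p : ℕ // p.Prime ∧ p ∈ E} => (1 : ℝ) / (p : ℕ)) :
    ∃ c : ℝ, 0 < c ∧ ∀ u : ℕ → I1,
    (∀ m n : ℕ, m.Coprime n → (u (m * n) : ℝ) = u m * u n) →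
    (∃ χ : DirichletCharacter ℂ q, ∀ p : ℕ, p.Prime → p ∉ E → ((u p : ℝ) : ℂ) = -χ p) →
    ∀ (κ : Measure X) [IsProbabilityMeasure κ], QGW u κ →
    ∃ G : X → ℝ, Measurable G ∧ (∀ x, 0 ≤ G x ∧ G x ≤ 1) ∧ c ≤ ∫ x, G x ∂κ ∧
      ∀ᵐ x ∂κ, Far (comp κ x) (G x) := by
  classical
  have hρ : Summable (fun p : Nat.Primes => (if (p : ℕ) ∈ E then (2 : ℝ) else 0) /
      ((p : ℕ) : ℝ)) := by
    refine ((sub_E hE).mul_left 2).congr fun p => ?_
    by_cases hp : (p : ℕ) ∈ E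
    · rw [if_pos hp, if_pos hp]
      ring
    · rw [if_neg hp, if_neg hp]
      ring
  obtain ⟨c, K, hc, h⟩ :=
    Pool.Agent.H24.WT.gh0W Pool.Agent.H3.GW.Fin.gh0w q 0
      (fun p => if p ∈ E then (2 : ℝ) else 0) hρ
  refine ⟨c, hc, fun u hm hχ κ _ hκ => ?_⟩
  obtain ⟨χ, hχ⟩ := hχ
  have h1 : (u 1 : ℝ) = 1 := u_one hE hm hχ
  have hG : Pool.Agent.H24.WT.GHw c (fun n => ((u n : ℝ) : ℂ)) := by
    intro R
    obtain ⟨H₀, h⟩ := h R
    refine ⟨H₀, K, fun H Y N hH hY hYN hK hb b β hbb => ?_⟩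
    refine h H Y N hH hY hYN hK hb χ 0 (fun n => ((u n : ℝ) : ℂ)) (by simp) (fun n => ?_)
      (fun n hn => ?_) (fun p hp => ?_) b β hbb
    · rw [Complex.norm_real, Real.norm_eq_abs]
      exact abs_le.2 (u n).2
    · show ((u n : ℝ) : ℂ) = ∏ p ∈ n.primeFactors, ((u p : ℝ) : ℂ)
      rw [prod_mult (fun n => (u n : ℝ)) hm h1 n hn]
      push_cast
      rfl
    · show ‖((u p : ℝ) : ℂ) + χ (p : ZMod q) * (p : ℂ) ^ (((0 : ℝ) : ℂ) * Complex.I)‖ ≤
        if p ∈ E then (2 : ℝ) else 0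
      by_cases hpE : p ∈ E
      · rw [if_pos hpE]
        simp only [Complex.ofReal_zero, zero_mul, Complex.cpow_zero, mul_one]
        refine (norm_add_le _ _).trans ?_
        have h2 : ‖((u p : ℝ) : ℂ)‖ ≤ 1 := by
          rw [Complex.norm_real, Real.norm_eq_abs]
          exact abs_le.2 (u p).2
        have h3 : ‖χ (p : ZMod q)‖ ≤ 1 := DirichletCharacter.norm_le_one χ _
        linarith
      · rw [if_neg hpE, hχ p hp hpE]
        simp
  exact Pool.Agent.H24.WT.furw_of _ hG u (fun _ _ => rfl) κ hκ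

/-- the sum over the primes is finite -/
theorem summ_cls {q : ℕ} [NeZero q] {E : Set ℕ}
    (hE : Summable fun p : {p : ℕ // p.Prime ∧ p ∈ E} => (1 : ℝ) / (p : ℕ)) (u : ℕ → I1)
    (hχ : ∃ χ : DirichletCharacter ℂ q, ∀ p : ℕ, p.Prime → p ∉ E → ((u p : ℝ) : ℂ) = -χ p) :
    Summable (fun p : {p : ℕ // p.Prime} => (1 - (u p : ℝ) ^ 2) / (p : ℝ)) := by
  classical
  obtain ⟨χ, hχ⟩ := hχ
  have h0 : Summable fun p : {p : ℕ // p.Prime} => if (p : ℕ) ∣ q then (1 : ℝ) else 0 := by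
    refine summable_of_ne_finset_zero (s := (q.primeFactors.subtype _)) fun p hp => ?_
    rw [if_neg]
    intro hd
    apply hp
    rw [Finset.mem_subtype]
    exact Nat.mem_primeFactors.2 ⟨p.2, hd, NeZero.ne q⟩
  have hb : ∀ p : {p : ℕ // p.Prime}, |(u p : ℝ)| ≤ 1 := fun p => abs_le.2 (u p).2
  have hsq : ∀ p : {p : ℕ // p.Prime}, (u p : ℝ) ^ 2 ≤ 1 := fun p => by
    rw [← sq_abs]
    exact pow_le_one₀ (abs_nonneg _) (hb p)
  refine Summable.of_nonneg_of_le (fun p => ?_) (fun p => ?_) ((sub_E hE).add h0)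
  · exact div_nonneg (by linarith [hsq p]) (Nat.cast_nonneg _)
  · have hp1 : (1 : ℝ) ≤ (p : ℕ) := by exact_mod_cast p.2.one_lt.le
    by_cases hpE : (p : ℕ) ∈ E
    · rw [if_pos hpE]
      have h2 : (1 - (u p : ℝ) ^ 2) / (p : ℝ) ≤ 1 / (p : ℝ) :=
        div_le_div_of_nonneg_right (by linarith [sq_nonneg (u p : ℝ)]) (by linarith)
      have h3 : (0 : ℝ) ≤ if (p : ℕ) ∣ q then (1 : ℝ) else 0 := by
        split_ifs <;> norm_num
      linarith
    · rw [if_neg hpE, zero_add]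
      by_cases hd : (p : ℕ) ∣ q
      · rw [if_pos hd, div_le_one (by linarith)]
        linarith [sq_nonneg (u p : ℝ)]
      · rw [if_neg hd]
        have hcop : Nat.Coprime p q := (p.2.coprime_iff_not_dvd).2 hd
        have hu : IsUnit ((p : ℕ) : ZMod q) := (ZMod.isUnit_iff_coprime p q).2 hcop
        have h1 : ‖((u p : ℝ) : ℂ)‖ = 1 := by
          rw [hχ p p.2 hpE, norm_neg]
          obtain ⟨v, hv⟩ := hu
          rw [← hv]
          exact χ.unit_norm_eq_one v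
        rw [Complex.norm_real, Real.norm_eq_abs] at h1
        rw [← sq_abs, h1]
        simp

end Pool.Agent.H56.FS
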