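import Pool.Agent.H56.FS.Key

/-!
# From the mean of a random invariant measure to the random measure (MP_c59857_nt)
-/

set_option autoImplicit false

open MeasureTheory ProbabilityTheory Filter Topology

namespace Pool.Agent.H56.FS

variable {α : Type*} [mα : MeasurableSpace α] {Ω : Type*} [mΩ : MeasurableSpace Ω]

theorem int_comp (P : Measure Ω) [IsProbabilityMeasure P] (K : Kernel Ω α) [IsMarkovKernel K]
    {f : α → ℝ} (hf : Integrable f (K ∘ₘ P)) :
    ∫ x, f x ∂(K ∘ₘ P) = ∫ ω, ∫ x, f x ∂(K ω) ∂P := by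
  rw [Measure.comp_eq_comp_const_apply] at hf ⊢
  rw [Kernel.integral_comp hf]
  simp

theorem int_comp_int (P : Measure Ω) [IsProbabilityMeasure P] (K : Kernel Ω α) [IsMarkovKernel K]
    {f : α → ℝ} (hf : Integrable f (K ∘ₘ P)) :
    Integrable (fun ω => ∫ x, f x ∂(K ω)) P := by
  rw [Measure.comp_eq_comp_const_apply] at hf
  have := hf.integral_comp
  simpa using this

theorem av_meas {T : α → α} (hT : Measurable T) {h : α → ℝ} (hh : Measurable h) (N : ℕ) :
    Measurable (av T h N) := by
  unfold av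
  refine Measurable.div_const ?_ _
  exact Finset.measurable_sum _ fun n _ => hh.comp (hT.iterate n)

theorem av_abs {T : α → α} {h : α → ℝ} {C : ℝ} (hC : ∀ x, |h x| ≤ C) (N : ℕ) (x : α) :
    |av T h N x| ≤ C := by
  have hC0 : 0 ≤ C := (abs_nonneg _).trans (hC x)
  unfold av
  rcases Nat.eq_zero_or_pos N with hN | hN
  · subst hN
    simpa using hC0
  have hN' : (0 : ℝ) < N := by exact_mod_cast hN
  rw [abs_div, abs_of_pos hN', div_le_iff₀ hN']
  refine (Finset.abs_sum_le_sum_abs _ _).trans ?_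
  refine (Finset.sum_le_sum fun n _ => hC _).trans ?_
  rw [Finset.sum_const, Finset.card_range, nsmul_eq_mul, mul_comm]

/-- the mean of the average -/
theorem av_int {ν : Measure α} [IsProbabilityMeasure ν] {T : α → α}
    (hT : MeasurePreserving T ν ν) {h : α → ℝ} (hh : Measurable h) {C : ℝ} (hC : ∀ x, |h x| ≤ C)
    {N : ℕ} (hN : 1 ≤ N) : ∫ x, av T h N x ∂ν = ∫ x, h x ∂ν := by
  have hi : ∀ n, Integrable (fun x => h (T^[n] x)) ν := fun n =>
    Integrable.of_bound (hh.comp (hT.measurable.iterate n)).aestronglyMeasurable C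
      (Eventually.of_forall fun x => hC _)
  have h1 : ∀ n, ∫ x, h (T^[n] x) ∂ν = ∫ x, h x ∂ν := by
    intro n
    have h2 := (hT.iterate n).map_eq
    have h3 : ∫ x, h x ∂(ν.map (T^[n])) = ∫ x, h (T^[n] x) ∂ν :=
      integral_map (hT.measurable.iterate n).aemeasurable hh.aestronglyMeasurable
    rw [← h3, h2]
  unfold av
  rw [integral_div, integral_finsetSum _ fun n _ => hi n]
  simp only [h1]
  rw [Finset.sum_const, Finset.card_range, nsmul_eq_mul]
  have : (N : ℝ) ≠ 0 := by exact_mod_cast (by omega : N ≠ 0)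
  field_simp

/-- the square of the mean is at most the mean square of the averages -/
theorem sq_le_av {ν : Measure α} [IsProbabilityMeasure ν] {T : α → α}
    (hT : MeasurePreserving T ν ν) {h : α → ℝ} (hh : Measurable h) {C : ℝ} (hC : ∀ x, |h x| ≤ C)
    {N : ℕ} (hN : 1 ≤ N) : (∫ x, h x ∂ν) ^ 2 ≤ ∫ x, (av T h N x) ^ 2 ∂ν := by
  rw [← av_int hT hh hC hN]
  have hm := av_meas hT.measurable hh N
  have hi : Integrable (av T h N) ν := Integrable.of_bound hm.aestronglyMeasurable C
    (Eventually.of_forall fun x => av_abs hC N x)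
  have hi2 : Integrable (fun x => (av T h N x) ^ 2) ν :=
    Integrable.of_bound (hm.pow_const 2).aestronglyMeasurable (C ^ 2)
      (Eventually.of_forall fun x => by
        rw [Real.norm_eq_abs, abs_pow]
        exact pow_le_pow_left₀ (abs_nonneg _) (av_abs hC N x) 2)
  set m := ∫ x, av T h N x ∂ν with hmdef
  have h1 : 0 ≤ ∫ x, (av T h N x - m) ^ 2 ∂ν := integral_nonneg fun x => sq_nonneg _
  have h2 : ∫ x, (av T h N x - m) ^ 2 ∂ν = ∫ x, (av T h N x) ^ 2 ∂ν - m ^ 2 := by
    have h3 : (fun x => (av T h N x - m) ^ 2) =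
        fun x => ((av T h N x) ^ 2 - (2 * m) * av T h N x) + m ^ 2 := by
      funext x
      ring
    have hi4 : Integrable (fun x => (2 * m) * av T h N x) ν := hi.const_mul _
    have hi5 : Integrable (fun x => (av T h N x) ^ 2 - (2 * m) * av T h N x) ν := hi2.sub hi4
    have h5 : ∫ x, (2 * m) * av T h N x ∂ν = 2 * m * m := by
      rw [integral_const_mul, ← hmdef]
    rw [h3, integral_add hi5 (integrable_const _), integral_sub hi2 hi4, h5]
    simp
    ring
  linarith

/-- **Key**: a function without invariant part for the mean has mean zero for almost every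
measure -/
theorem key (P : Measure Ω) [IsProbabilityMeasure P] (K : Kernel Ω α) [IsMarkovKernel K]
    {T : α → α} (hT : MeasurePreserving T (K ∘ₘ P) (K ∘ₘ P))
    (hK : ∀ᵐ ω ∂P, MeasurePreserving T (K ω) (K ω)) {h : α → ℝ} (hh : Measurable h) {C : ℝ}
    (hC : ∀ x, |h x| ≤ C) (h0 : (K ∘ₘ P)[h | Inv T] =ᵐ[K ∘ₘ P] 0) :
    ∀ᵐ ω ∂P, ∫ x, h x ∂(K ω) = 0 := by
  have hL : MemLp h 2 (K ∘ₘ P) := MemLp.of_bound hh.aestronglyMeasurable C
    (Eventually.of_forall fun x => hC x)
  have h1 := mean_zero hT hL h0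
  have hi2 : ∀ N, Integrable (fun x => (av T h N x) ^ 2) (K ∘ₘ P) := fun N =>
    Integrable.of_bound ((av_meas hT.measurable hh N).pow_const 2).aestronglyMeasurable (C ^ 2)
      (Eventually.of_forall fun x => by
        rw [Real.norm_eq_abs, abs_pow]
        exact pow_le_pow_left₀ (abs_nonneg _) (av_abs hC N x) 2)
  have hb : ∀ ω, |∫ x, h x ∂(K ω)| ≤ C := by
    intro ω
    have h2 := norm_integral_le_of_norm_le_const (μ := K ω) (f := h) (C := C)
      (Eventually.of_forall fun x => hC x)
    simpa using h2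
  have hhi : Integrable h (K ∘ₘ P) := hL.integrable one_le_two
  have hm : AEStronglyMeasurable (fun ω => ∫ x, h x ∂(K ω)) P := (int_comp_int P K hhi).1
  have hi3 : Integrable (fun ω => (∫ x, h x ∂(K ω)) ^ 2) P :=
    Integrable.of_bound (hm.pow 2) (C ^ 2) (Eventually.of_forall fun ω => by
      rw [Real.norm_eq_abs, abs_pow]
      exact pow_le_pow_left₀ (abs_nonneg _) (hb ω) 2)
  have h2 : ∀ N : ℕ, 1 ≤ N → ∫ ω, (∫ x, h x ∂(K ω)) ^ 2 ∂P ≤
      ∫ x, (av T h N x) ^ 2 ∂(K ∘ₘ P) := by
    intro N hN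
    rw [int_comp P K (hi2 N)]
    refine integral_mono_ae hi3 (int_comp_int P K (hi2 N)) ?_
    filter_upwards [hK] with ω hω
    exact sq_le_av hω hh hC hN
  have h3 : ∫ ω, (∫ x, h x ∂(K ω)) ^ 2 ∂P ≤ 0 := by
    refine ge_of_tendsto h1 ?_
    filter_upwards [eventually_ge_atTop 1] with N hN
    exact h2 N hN
  have h4 : ∫ ω, (∫ x, h x ∂(K ω)) ^ 2 ∂P = 0 :=
    le_antisymm h3 (integral_nonneg fun ω => sq_nonneg _)
  rw [integral_eq_zero_iff_of_nonneg (fun ω => sq_nonneg _) hi3] at h4
  filter_upwards [h4] with ω hω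
  exact pow_eq_zero_iff (two_ne_zero) |>.1 hω

/-- the conditional expectation given the invariant sets is the same for almost every measure -/
theorem inv_cond (P : Measure Ω) [IsProbabilityMeasure P] (K : Kernel Ω α) [IsMarkovKernel K]
    {T : α → α} (hT : MeasurePreserving T (K ∘ₘ P) (K ∘ₘ P))
    (hK : ∀ᵐ ω ∂P, MeasurePreserving T (K ω) (K ω)) {F : α → ℝ} (hF : Measurable F) {C : ℝ}
    (hC : ∀ x, |F x| ≤ C) {G : α → ℝ} (hG : Measurable[Inv T] G) (hGC : ∀ x, |G x| ≤ C)
    (hGF : (K ∘ₘ P)[F | Inv T] =ᵐ[K ∘ₘ P] G) :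
    ∀ᵐ ω ∂P, (K ω)[F | Inv T] =ᵐ[K ω] G := by
  have hGm : Measurable G := hG.mono (Inv_le T) le_rfl
  have hGT : ∀ x, G (T x) = G x := by
    intro x
    have h1 := MeasurableSpace.comp_eq_of_measurable_invariants hG
    exact congrFun h1 x
  have hGTn : ∀ (n : ℕ) (x : α), G (T^[n] x) = G x := by
    intro n
    induction n with
    | zero => exact fun x => rfl
    | succ n ih => exact fun x => by rw [Function.iterate_succ_apply, ih, hGT]
  have hFi : ∀ ν : Measure α, IsProbabilityMeasure ν → Integrable F ν := fun ν _ =>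
    Integrable.of_bound hF.aestronglyMeasurable C (Eventually.of_forall fun x => hC x)
  have hGi : ∀ ν : Measure α, IsProbabilityMeasure ν → Integrable G ν := fun ν _ =>
    Integrable.of_bound hGm.aestronglyMeasurable C (Eventually.of_forall fun x => hGC x)
  have hdm : Measurable (F - G) := hF.sub hGm
  have hdC : ∀ x, |(F - G) x| ≤ C + C := fun x => by
    simp only [Pi.sub_apply]
    exact (abs_sub _ _).trans (add_le_add (hC x) (hGC x))
  have hdL : MemLp (F - G) 2 (K ∘ₘ P) := MemLp.of_bound hdm.aestronglyMeasurable (C + C)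
    (Eventually.of_forall fun x => hdC x)
  have hd0 : (K ∘ₘ P)[F - G | Inv T] =ᵐ[K ∘ₘ P] 0 := by
    have h1 := condExp_sub (hFi (K ∘ₘ P) inferInstance) (hGi (K ∘ₘ P) inferInstance) (Inv T)
    have h2 : (K ∘ₘ P)[G | Inv T] = G :=
      condExp_of_stronglyMeasurable (Inv_le T) hG.stronglyMeasurable (hGi _ inferInstance)
    filter_upwards [h1, hGF] with x h1 h3
    rw [h1, h2]
    simp [h3]
  have h1 := mean_zero hT hdL hd0
  have hi2 : ∀ N, Integrable (fun x => (av T (F - G) N x) ^ 2) (K ∘ₘ P) := fun N =>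
    Integrable.of_bound ((av_meas hT.measurable hdm N).pow_const 2).aestronglyMeasurable
      ((C + C) ^ 2) (Eventually.of_forall fun x => by
        rw [Real.norm_eq_abs, abs_pow]
        exact pow_le_pow_left₀ (abs_nonneg _) (av_abs hdC N x) 2)
  -- a subsequence
  have h2 : Tendsto (fun N : ℕ => ∫ ω, ∫ x, (av T (F - G) N x) ^ 2 ∂(K ω) ∂P) atTop (𝓝 0) := by
    refine h1.congr fun N => ?_
    exact int_comp P K (hi2 N)
  have h3 : ∃ φ : ℕ → ℕ, StrictMono φ ∧ ∀ᵐ ω ∂P,
      Tendsto (fun k => ∫ x, (av T (F - G) (φ k) x) ^ 2 ∂(K ω)) atTop (𝓝 0) := by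
    have h4 : TendstoInMeasure P (fun (N : ℕ) ω => ∫ x, (av T (F - G) N x) ^ 2 ∂(K ω)) atTop
        (fun _ => (0 : ℝ)) := by
      refine tendstoInMeasure_of_tendsto_eLpNorm one_ne_zero
        (fun N => (int_comp_int P K (hi2 N)).1) aestronglyMeasurable_const ?_
      have h5 : ∀ N : ℕ, eLpNorm ((fun ω => ∫ x, (av T (F - G) N x) ^ 2 ∂(K ω)) -
          fun _ => (0 : ℝ)) 1 P = ENNReal.ofReal (∫ ω, ∫ x, (av T (F - G) N x) ^ 2 ∂(K ω) ∂P) := by
        intro N
        have h6 : ((fun ω => ∫ x, (av T (F - G) N x) ^ 2 ∂(K ω)) - fun _ => (0 : ℝ)) =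
            fun ω => ∫ x, (av T (F - G) N x) ^ 2 ∂(K ω) := by
          funext ω
          simp
        rw [h6, eLpNorm_one_eq_lintegral_enorm,
          ofReal_integral_eq_lintegral_ofReal (int_comp_int P K (hi2 N))
            (Eventually.of_forall fun ω => integral_nonneg fun x => sq_nonneg _)]
        refine lintegral_congr fun ω => ?_
        exact Real.enorm_of_nonneg (integral_nonneg fun x => sq_nonneg _)
      simp only [h5]
      rw [← ENNReal.ofReal_zero]
      exact (ENNReal.continuous_ofReal.tendsto 0).comp h2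
    exact h4.exists_seq_tendsto_ae
  obtain ⟨φ, hφ, h3⟩ := h3
  filter_upwards [h3, hK] with ω hω hKω
  refine (ae_eq_condExp_of_forall_setIntegral_eq (Inv_le T) (hFi (K ω) inferInstance) ?_ ?_
    hG.stronglyMeasurable.aestronglyMeasurable).symm
  · intro s _ _
    exact (hGi (K ω) inferInstance).integrableOn
  · intro s hs _
    have hsm : MeasurableSet s := hs.1
    -- the function `1_s (F - G)`
    set h : α → ℝ := s.indicator (F - G) with hh
    have hhm : Measurable h := hdm.indicator hsm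
    have hhC : ∀ x, |h x| ≤ C + C := by
      intro x
      by_cases hx : x ∈ s
      · rw [hh, Set.indicator_of_mem hx]
        exact hdC x
      · rw [hh, Set.indicator_of_notMem hx, abs_zero]
        have := hdC x
        exact (abs_nonneg _).trans this
    have hav : ∀ (N : ℕ) (x : α), av T h N x = s.indicator (av T (F - G) N) x := by
      intro N x
      have hmem : ∀ n : ℕ, T^[n] x ∈ s ↔ x ∈ s := by
        intro n
        induction n with
        | zero => exact Iff.rfl
        | succ n ih =>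
          rw [Function.iterate_succ_apply']
          have h7 : T (T^[n] x) ∈ s ↔ T^[n] x ∈ s := by
            rw [← Set.mem_preimage, hs.2]
          exact h7.trans ih
      by_cases hx : x ∈ s
      · rw [Set.indicator_of_mem hx]
        unfold av
        congr 1
        refine Finset.sum_congr rfl fun n _ => ?_
        rw [hh, Set.indicator_of_mem ((hmem n).2 hx)]
      · rw [Set.indicator_of_notMem hx]
        unfold av
        rw [Finset.sum_eq_zero fun n _ => ?_, zero_div]
        rw [hh, Set.indicator_of_notMem (fun hc => hx ((hmem n).1 hc))]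
    have h5 : ∀ N : ℕ, 1 ≤ N → (∫ x, h x ∂(K ω)) ^ 2 ≤ ∫ x, (av T (F - G) N x) ^ 2 ∂(K ω) := by
      intro N hN
      refine (sq_le_av hKω hhm hhC hN).trans ?_
      refine integral_mono_of_nonneg (Eventually.of_forall fun x => sq_nonneg _) ?_
        (Eventually.of_forall fun x => ?_)
      · exact Integrable.of_bound ((av_meas hT.measurable hdm N).pow_const 2).aestronglyMeasurable
          ((C + C) ^ 2) (Eventually.of_forall fun x => by
            rw [Real.norm_eq_abs, abs_pow]
            exact pow_le_pow_left₀ (abs_nonneg _) (av_abs hdC N x) 2)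
      · show (av T h N x) ^ 2 ≤ (av T (F - G) N x) ^ 2
        rw [hav]
        by_cases hx : x ∈ s
        · rw [Set.indicator_of_mem hx]
        · rw [Set.indicator_of_notMem hx]
          have := sq_nonneg (av T (F - G) N x)
          simpa using this
    have h6 : (∫ x, h x ∂(K ω)) ^ 2 ≤ 0 := by
      refine ge_of_tendsto hω ?_
      filter_upwards [eventually_ge_atTop 1] with k hk
      exact h5 (φ k) (hk.trans (hφ.id_le k))
    have h7 : ∫ x, h x ∂(K ω) = 0 := by
      have := sq_nonneg (∫ x, h x ∂(K ω))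
      exact pow_eq_zero_iff two_ne_zero |>.1 (le_antisymm h6 this)
    rw [hh, integral_indicator hsm] at h7
    have h8 : ∫ x in s, (F - G) x ∂(K ω) = ∫ x in s, F x ∂(K ω) - ∫ x in s, G x ∂(K ω) :=
      integral_sub (hFi (K ω) inferInstance).integrableOn (hGi (K ω) inferInstance).integrableOn
    rw [h8] at h7
    linarith

end Pool.Agent.H56.FS
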