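import Mathlib

/-!
# Invariant functions and ergodic averages in the mean square (MP_c59857_nt)
-/

set_option autoImplicit false

open MeasureTheory ProbabilityTheory Filter Topology

namespace Pool.Agent.H56.FS

variable {α : Type*} [mα : MeasurableSpace α]

/-- the invariant sets -/
abbrev Inv (T : α → α) : MeasurableSpace α := MeasurableSpace.invariants T

theorem Inv_le (T : α → α) : Inv T ≤ mα := fun _ hs => hs.1

/-- a function without invariant part is orthogonal to the almost everywhere invariant functions -/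
theorem fix_orth {κ : Measure α} [IsProbabilityMeasure κ] {T : α → α}
    (hT : MeasurePreserving T κ κ) {g h : α → ℝ} (hg : Measurable g)
    (hgT : (fun x => g (T x)) =ᵐ[κ] g) (hh : Integrable h κ) (h0 : κ[h | Inv T] =ᵐ[κ] 0)
    (hgh : Integrable (g * h) κ) : ∫ x, (g * h) x ∂κ = 0 := by
  have hmg : MeasurableSpace.comap g inferInstance ≤ mα := hg.comap_le
  have h1 : κ[h | MeasurableSpace.comap g inferInstance] =ᵐ[κ] 0 := by
    refine (ae_eq_condExp_of_forall_setIntegral_eq hmg hh ?_ ?_ ?_).symm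
    · intro s _ _
      exact (integrable_zero α ℝ κ).integrableOn
    · rintro _ ⟨B, hB, rfl⟩ _
      simp only [Pi.zero_apply, integral_zero]
      have h2 : T ⁻¹' (g ⁻¹' B) =ᵐ[κ] g ⁻¹' B := by
        rw [Filter.eventuallyEq_set]
        filter_upwards [hgT] with x hx
        show g (T x) ∈ B ↔ g x ∈ B
        have : g (T x) = g x := hx
        rw [this]
      obtain ⟨t, htm, hte, htT⟩ :=
        hT.quasiMeasurePreserving.exists_preimage_eq_of_preimage_ae
          (hg hB).nullMeasurableSet h2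
      rw [← setIntegral_congr_set hte, ← setIntegral_condExp (Inv_le T) hh
        (show MeasurableSet[Inv T] t from ⟨htm, htT⟩)]
      have h3 : ∫ x in t, (κ[h | Inv T]) x ∂κ = ∫ x in t, (0 : α → ℝ) x ∂κ :=
        integral_congr_ae (ae_restrict_of_ae h0)
      rw [h3]
      simp
    · exact stronglyMeasurable_zero.aestronglyMeasurable
  have h2 : StronglyMeasurable[MeasurableSpace.comap g inferInstance] g :=
    (comap_measurable g).stronglyMeasurable
  have h3 := condExp_mul_of_stronglyMeasurable_left h2 hgh hh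
  rw [← integral_condExp hmg, integral_congr_ae h3]
  have h4 : g * κ[h | MeasurableSpace.comap g inferInstance] =ᵐ[κ] 0 := by
    filter_upwards [h1] with x hx
    simp [hx]
  rw [integral_congr_ae h4]
  simp

/-- the mean over the orbit -/
noncomputable def av (T : α → α) (h : α → ℝ) (N : ℕ) (x : α) : ℝ :=
  (∑ n ∈ Finset.range N, h (T^[n] x)) / (N : ℝ)

/-- **The mean ergodic theorem** for a function without invariant part -/
theorem mean_zero {κ : Measure α} [IsProbabilityMeasure κ] {T : α → α}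
    (hT : MeasurePreserving T κ κ) {F : α → ℝ} (hF : MemLp F 2 κ)
    (h0 : κ[F | Inv T] =ᵐ[κ] 0) :
    Tendsto (fun N : ℕ => ∫ x, (av T F N x) ^ 2 ∂κ) atTop (𝓝 0) := by
  classical
  set u : Lp ℝ 2 κ := hF.toLp F with hu
  set K : Lp ℝ 2 κ →L[ℝ] Lp ℝ 2 κ :=
    (Lp.compMeasurePreservingₗᵢ ℝ T hT).toContinuousLinearMap with hK
  have hKn : ‖K‖ ≤ 1 := LinearIsometry.norm_toContinuousLinearMap_le _
  have hKe : ∀ w : Lp ℝ 2 κ, K w = Lp.compMeasurePreserving T hT w := fun w => rfl
  have htend := K.tendsto_birkhoffAverage_orthogonalProjection hKn u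
  have h1 : (K.eqLocus (1 : Lp ℝ 2 κ →L[ℝ] Lp ℝ 2 κ)).orthogonalProjectionOnto u = 0 := by
    rw [Submodule.orthogonalProjectionOnto_eq_zero_iff, Submodule.mem_orthogonal]
    intro p hp
    have hKp : K p = p := hp
    have hps := Lp.aestronglyMeasurable p
    obtain ⟨g, hgm, hgp⟩ : ∃ g : α → ℝ, Measurable g ∧ (p : α → ℝ) =ᵐ[κ] g :=
      ⟨hps.mk p, hps.stronglyMeasurable_mk.measurable, hps.ae_eq_mk⟩
    have h2 := Lp.coeFn_compMeasurePreserving p hT
    rw [← hKe, hKp] at h2
    have hgT : (fun x => g (T x)) =ᵐ[κ] g := by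
      have h3 := hT.quasiMeasurePreserving.ae hgp
      filter_upwards [h2, h3, hgp] with x h2 h3 h4
      rw [← h4, h2]
      exact h3.symm
    have hgL : MemLp g 2 κ := (Lp.memLp p).ae_eq hgp
    have hgF : Integrable (g * F) κ := hgL.integrable_mul hF
    have h4 := fix_orth hT hgm hgT (hF.integrable one_le_two) h0 hgF
    rw [L2.inner_def]
    rw [← h4]
    refine integral_congr_ae ?_
    filter_upwards [hgp, hF.coeFn_toLp] with x h5 h6
    rw [h5, h6]
    simp [mul_comm]
  rw [h1] at htend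
  -- the averages
  have hsum : ∀ N : ℕ, ((∑ n ∈ Finset.range N, (K^[n] u) : Lp ℝ 2 κ) : α → ℝ)
      =ᵐ[κ] fun x => ∑ n ∈ Finset.range N, F (T^[n] x) := by
    intro N
    induction N with
    | zero =>
      simp only [Finset.range_zero, Finset.sum_empty]
      exact Lp.coeFn_zero _ _ _
    | succ N ih =>
      rw [Finset.sum_range_succ]
      have h1 : ((K^[N] u : Lp ℝ 2 κ) : α → ℝ) =ᵐ[κ] fun x => F (T^[N] x) := by
        have h2 : K^[N] u = Lp.compMeasurePreserving T^[N] (hT.iterate N) u := by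
          rw [← Lp.compMeasurePreserving_iterate]
          rfl
        rw [h2, hu, Lp.toLp_compMeasurePreserving]
        exact MemLp.coeFn_toLp _
      filter_upwards [Lp.coeFn_add (∑ n ∈ Finset.range N, (K^[n] u)) (K^[N] u), ih, h1]
        with x h3 h4 h5
      rw [h3, Pi.add_apply, h4, h5, Finset.sum_range_succ]
  have havg : ∀ N : ℕ, ((birkhoffAverage ℝ K id N u : Lp ℝ 2 κ) : α → ℝ)
      =ᵐ[κ] av T F N := by
    intro N
    have h1 : birkhoffAverage ℝ K id N u = (N : ℝ)⁻¹ • ∑ n ∈ Finset.range N, (K^[n] u) := by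
      rw [birkhoffAverage, birkhoffSum]
      rfl
    rw [h1]
    filter_upwards [Lp.coeFn_smul (N : ℝ)⁻¹ (∑ n ∈ Finset.range N, (K^[n] u)), hsum N]
      with x h2 h3
    rw [h2, Pi.smul_apply, h3, smul_eq_mul, inv_mul_eq_div]
    rfl
  have hn : ∀ N : ℕ, ∫ x, (av T F N x) ^ 2 ∂κ = ‖birkhoffAverage ℝ K id N u‖ ^ 2 := by
    intro N
    have h2 := real_inner_self_eq_norm_sq (birkhoffAverage ℝ K id N u)
    rw [← h2, L2.inner_def]
    refine integral_congr_ae ?_
    filter_upwards [havg N] with x hx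
    rw [hx]
    simp [sq]
  have h2 : Tendsto (fun N : ℕ => ‖birkhoffAverage ℝ K id N u‖ ^ 2) atTop (𝓝 (‖(0 : Lp ℝ 2 κ)‖ ^ 2)) := by
    refine Tendsto.pow ?_ 2
    exact htend.norm
  simp only [hn]
  simpa using h2

end Pool.Agent.H56.FS
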